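import Pool.Agent.H30.VR.Targets

/-!
# Row BLB of the board `ver_modules` (MP_d32443_co)
-/

set_option autoImplicit false

open Finset Pool.Agent.H48.CE Pool.Agent.H30.VR

namespace Pool.Agent.H35.VR

theorem exists_L (η : ℝ) (hη : 0 < η) : ∃ L : ℕ, 1 ≤ L ∧ 2 ≤ (1 + η) ^ L ∧
    4 * Real.exp (-(η ^ 2 * L / 2)) ≤ η ^ 2 := by
  have h1 : ∀ᶠ L : ℕ in Filter.atTop, 2 ≤ (1 + η) ^ L :=
    (tendsto_pow_atTop_atTop_of_one_lt (by linarith)).eventually_ge_atTop 2
  have h2 : Filter.Tendsto (fun L : ℕ => η ^ 2 * (L : ℝ) / 2) Filter.atTop Filter.atTop := by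
    have h3 : Filter.Tendsto (fun L : ℕ => (η ^ 2 / 2) * (L : ℝ)) Filter.atTop Filter.atTop :=
      tendsto_natCast_atTop_atTop.const_mul_atTop (by positivity)
    refine h3.congr fun L => ?_
    ring
  have h3 : Filter.Tendsto (fun L : ℕ => 4 * Real.exp (-(η ^ 2 * (L : ℝ) / 2))) Filter.atTop
      (nhds (4 * 0)) := (Real.tendsto_exp_neg_atTop_nhds_zero.comp h2).const_mul 4
  rw [mul_zero] at h3
  have h4 : ∀ᶠ L : ℕ in Filter.atTop, 4 * Real.exp (-(η ^ 2 * (L : ℝ) / 2)) < η ^ 2 :=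
    h3.eventually (gt_mem_nhds (by positivity))
  obtain ⟨L, a, b, c⟩ := (h1.and (h4.and (Filter.eventually_ge_atTop 1))).exists
  exact ⟨L, c, a, b.le⟩

open scoped Classical in
theorem blb_core (hSPL : T_SPL) {V : Type} [Fintype V] (T L : ℕ) (hL : 1 ≤ L) (K η : ℝ)
    (p : Fin T → Finset V × Finset V) (hdis : ∀ j, ∀ v ∈ (p j).1, v ∉ (p j).2)
    (hcard : ∀ j, (p j).2.card = (p j).1.card)
    (h1 : (1 - 2 * η) * L * K ≤ ∑ j, ((p j).1.card : ℝ))
    (h2 : ∑ v, max 0 (((univ.filter (fun j => v ∈ (p j).1 ∨ v ∈ (p j).2)).card : ℝ) - L) ≤ η * K) :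
    ∃ (s : Fin T → ℕ) (S : Fin T × Bool → Finset V),
      (∀ j, S (j, false) ⊆ (p j).1 ∧ S (j, true) ⊆ (p j).2 ∧ (S (j, false)).card = s j ∧
        (S (j, true)).card = s j) ∧
      (∀ i j, i ≠ j → ∀ v ∈ S i, v ∉ S j) ∧
      (1 - 4 * η) * K - 2 * T ≤
        ∑ j ∈ univ.filter (fun j => (p j).1.card ≤ 2 * L * s j), (s j : ℝ) := by
  have hLr : (0 : ℝ) < L := by exact_mod_cast hL
  have hL1 : (1 : ℝ) ≤ L := by exact_mod_cast hL
  set c : V → ℕ := fun v => (univ.filter (fun j => v ∈ (p j).1 ∨ v ∈ (p j).2)).card with hc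
  set x : V → ℝ := fun v => 1 / max (L : ℝ) (c v) with hx
  have hmx : ∀ v, (0 : ℝ) < max (L : ℝ) (c v) := fun v => lt_of_lt_of_le hLr (le_max_left _ _)
  have hx0 : ∀ v, 0 ≤ x v := fun v => by
    have := hmx v
    simp only [hx]
    positivity
  have hxL : ∀ v, x v ≤ 1 / L := fun v => by
    simp only [hx]
    exact one_div_le_one_div_of_le hLr (le_max_left _ _)
  have hxc : ∀ v, x v * c v ≤ 1 := fun v => by
    simp only [hx]
    rw [one_div, inv_mul_le_iff₀ (hmx v), mul_one]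
    exact le_max_right _ _
  have hcy : ∀ v, (c v : ℝ) * (1 / L - x v) ≤ max 0 ((c v : ℝ) - L) / L := by
    intro v
    by_cases h : (c v : ℝ) ≤ L
    · have h3 : x v = 1 / L := by
        simp only [hx]
        rw [max_eq_left h]
      rw [h3, sub_self, mul_zero]
      positivity
    · push Not at h
      have hc0 : (0 : ℝ) < c v := by linarith
      have h3 : x v = 1 / c v := by
        simp only [hx]
        rw [max_eq_right h.le]
      rw [h3, max_eq_right (by linarith)]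
      apply le_of_eq
      field_simp
  set X1 : Fin T → ℝ := fun j => ∑ v ∈ (p j).1, x v with hX1
  set X2 : Fin T → ℝ := fun j => ∑ v ∈ (p j).2, x v with hX2
  set mn : Fin T → ℝ := fun j => min (X1 j) (X2 j) with hmn
  have hmn0 : ∀ j, 0 ≤ mn j := fun j =>
    le_min (sum_nonneg fun v _ => hx0 v) (sum_nonneg fun v _ => hx0 v)
  set s : Fin T → ℕ := fun j => ⌊mn j⌋₊ with hs
  have hs1 : ∀ j, (s j : ℝ) ≤ mn j := fun j => Nat.floor_le (hmn0 j)
  have hs2 : ∀ j, mn j < s j + 1 := fun j => Nat.lt_floor_add_one _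
  -- the splitting
  obtain ⟨S, hS1, hS2⟩ := hSPL (fun i : Fin T × Bool => if i.2 then (p i.1).2 else (p i.1).1) x
    (fun i => s i.1) hx0 (by
      intro v
      have h3 : (univ.filter (fun i : Fin T × Bool =>
          v ∈ (if i.2 then (p i.1).2 else (p i.1).1))).card ≤ c v := by
        apply card_le_card_of_injOn (fun i => i.1)
        · rintro ⟨j, e⟩ hi
          simp only [coe_filter, mem_univ, true_and, Set.mem_ofPred_eq] at hi ⊢
          cases e
          · left; simpa using hi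
          · right; simpa using hi
        · rintro ⟨j, e⟩ hi ⟨j', e'⟩ hi' hij
          simp only [coe_filter, mem_univ, true_and, Set.mem_ofPred_eq] at hi hi' hij
          subst hij
          have h4 := hdis j v
          cases e <;> cases e' <;> simp_all
      have h4 : x v * ((univ.filter (fun i : Fin T × Bool =>
          v ∈ (if i.2 then (p i.1).2 else (p i.1).1))).card : ℝ) ≤ x v * c v :=
        mul_le_mul_of_nonneg_left (by exact_mod_cast h3) (hx0 v)
      exact h4.trans (hxc v)) (by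
      rintro ⟨j, e⟩
      cases e
      · exact (hs1 j).trans (min_le_left _ _)
      · exact (hs1 j).trans (min_le_right _ _))
  refine ⟨s, S, fun j => ?_, hS2, ?_⟩
  · have a1 := hS1 (j, false)
    have a2 := hS1 (j, true)
    exact ⟨by simpa using a1.1, by simpa using a2.1, a1.2, a2.2⟩
  -- the loss
  have hD1 : ∀ j, ((p j).1.card : ℝ) / L - X1 j = ∑ v ∈ (p j).1, (1 / L - x v) := by
    intro j
    rw [sum_sub_distrib, sum_const, nsmul_eq_mul]
    ring
  have hD2 : ∀ j, ((p j).1.card : ℝ) / L - X2 j = ∑ v ∈ (p j).2, (1 / L - x v) := by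
    intro j
    rw [sum_sub_distrib, sum_const, nsmul_eq_mul, hcard j]
    ring
  have hy0 : ∀ v, 0 ≤ 1 / (L : ℝ) - x v := fun v => sub_nonneg.2 (hxL v)
  have hη : 0 ≤ η * K := le_trans (sum_nonneg fun v _ => le_max_left _ _) h2
  have hloss : ∑ j, ((((p j).1.card : ℝ) / L - X1 j) + (((p j).1.card : ℝ) / L - X2 j)) ≤
      η * K := by
    have e1 : ∀ j, (((p j).1.card : ℝ) / L - X1 j) + (((p j).1.card : ℝ) / L - X2 j) =
        ∑ v, if v ∈ (p j).1 ∨ v ∈ (p j).2 then (1 / (L : ℝ) - x v) else 0 := by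
      intro j
      rw [hD1, hD2, ← sum_filter]
      have e2 : univ.filter (fun v => v ∈ (p j).1 ∨ v ∈ (p j).2) = (p j).1 ∪ (p j).2 := by
        ext v
        simp
      rw [e2, sum_union]
      rw [disjoint_left]
      exact hdis j
    rw [sum_congr rfl fun j _ => e1 j, sum_comm]
    have e3 : ∀ v, (∑ j : Fin T, if v ∈ (p j).1 ∨ v ∈ (p j).2 then (1 / (L : ℝ) - x v) else 0) =
        c v * (1 / L - x v) := by
      intro v
      rw [← sum_filter, sum_const, nsmul_eq_mul]
    rw [sum_congr rfl fun v _ => e3 v]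
    calc ∑ v, (c v : ℝ) * (1 / L - x v) ≤ ∑ v, max 0 ((c v : ℝ) - L) / L :=
          sum_le_sum fun v _ => hcy v
      _ = (∑ v, max 0 ((c v : ℝ) - L)) / L := by rw [sum_div]
      _ ≤ η * K / L := div_le_div_of_nonneg_right h2 hLr.le
      _ ≤ η * K := div_le_self hη hL1
  -- the sum over the good indices
  have hpt : ∀ j, ((p j).1.card : ℝ) / L - 2 * ((((p j).1.card : ℝ) / L - X1 j) +
      (((p j).1.card : ℝ) / L - X2 j)) - 2 ≤
      if (p j).1.card ≤ 2 * L * s j then (s j : ℝ) else 0 := by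
    intro j
    have d1 : 0 ≤ ((p j).1.card : ℝ) / L - X1 j := by
      rw [hD1]
      exact sum_nonneg fun v _ => hy0 v
    have d2 : 0 ≤ ((p j).1.card : ℝ) / L - X2 j := by
      rw [hD2]
      exact sum_nonneg fun v _ => hy0 v
    have d3 : ((p j).1.card : ℝ) / L - mn j ≤ (((p j).1.card : ℝ) / L - X1 j) +
        (((p j).1.card : ℝ) / L - X2 j) := by
      rcases min_choice (X1 j) (X2 j) with h | h
      · have : mn j = X1 j := h
        rw [this]
        linarith
      · have : mn j = X2 j := h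
        rw [this]
        linarith
    have d4 := hs2 j
    split_ifs with hg
    · linarith
    · push Not at hg
      have d5 : (2 * L * s j : ℝ) < (p j).1.card := by exact_mod_cast hg
      have d6 : (s j : ℝ) < ((p j).1.card : ℝ) / L / 2 := by
        rw [div_div, lt_div_iff₀ (by positivity)]
        linarith
      linarith
  rw [sum_filter]
  refine le_trans ?_ (sum_le_sum fun j _ => hpt j)
  rw [sum_sub_distrib, sum_sub_distrib, ← mul_sum, ← sum_div]
  have e4 : (1 - 2 * η) * K ≤ (∑ j, ((p j).1.card : ℝ)) / L := by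
    rw [le_div_iff₀ hLr]
    linarith
  have e5 : ∑ _j : Fin T, (2 : ℝ) = 2 * T := by
    rw [sum_const, card_univ, Fintype.card_fin, nsmul_eq_mul]
    ring
  rw [e5]
  linarith

theorem pf_BLB (hSTP : T_STP) (hMWS : T_MWS) (hSPL : T_SPL) : T_BLB := by
  classical
  intro ε hε hε1
  obtain ⟨d, hd, hd1, hSTP⟩ := hSTP ε hε hε1
  refine ⟨d, hd, hd1, ?_⟩
  intro b hb
  obtain ⟨L, hL, hL2, hL3⟩ := exists_L (ε / 100) (by positivity)
  have hLb : 1 ≤ L * b := Nat.one_le_iff_ne_zero.2 (by positivity)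
  have hr2 : 2 ≤ 2 * L * b := by nlinarith
  obtain ⟨γ, k₀, hγ, hSTP⟩ := hSTP (2 * L * b) hr2
  have hLr : (0 : ℝ) < L := by exact_mod_cast hL
  obtain ⟨T₀, hT₀⟩ : ∃ T₀ : ℕ, T₀ = ⌈(L : ℝ) / γ⌉₊ := ⟨_, rfl⟩
  refine ⟨2 * L * b, T₀, max (max k₀ 1) ⌈2 * (T₀ : ℝ) / (0.075 * ε)⌉₊, γ, hγ, ?_⟩
  intro k hk V _ G hG hV he
  have hk0 : k₀ ≤ k := (le_max_left _ _).trans ((le_max_left _ _).trans hk)
  have hk1 : 1 ≤ k := (le_max_right _ _).trans ((le_max_left _ _).trans hk)
  have hk2 : 2 * (T₀ : ℝ) / (0.075 * ε) ≤ k :=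
    (Nat.le_ceil _).trans (by exact_mod_cast (le_max_right _ _).trans hk)
  have hkr : (1 : ℝ) ≤ k := by exact_mod_cast hk1
  have hkpos : (0 : ℝ) < k := by linarith
  set K : ℝ := (1 + ε / 4) * k with hK
  have hK0 : 0 < K := by positivity
  have hKk : (k : ℝ) ≤ K := by rw [hK]; nlinarith
  set F : Set (Finset V × Finset V) := {q | (∀ v ∈ q.1, v ∉ q.2) ∧ q.2.card = q.1.card ∧
    ∃ t : ℕ, q.1.card = 2 * L * b * t ∧ γ * k ≤ t ∧ (q.1.card : ℝ) ≤ ε / 100 * k ∧
      LR G d t q.1 q.2} with hF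
  have hrr : (2 : ℝ) ≤ ((2 * L * b : ℕ) : ℝ) := by exact_mod_cast hr2
  obtain ⟨T, p, hpF, hTg, hs1, hs2⟩ := hMWS F K (ε / 100) γ L hK0 (by positivity)
    (by linarith) hγ hL hL2 hL3 (by
      rintro q ⟨q1, q2, t, q3, q4, q5, -⟩
      refine ⟨q1, q2, ?_, ?_⟩
      · have h1 : (q.1.card : ℝ) = ((2 * L * b : ℕ) : ℝ) * t := by
          rw [q3]
          push_cast
          ring
        rw [h1, hK]
        have h2 : γ * ((1 + ε / 4) * k) ≤ 2 * (γ * k) := by
          have : 0 ≤ γ * k := by positivity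
          nlinarith
        have h3 : 2 * (γ * k) ≤ ((2 * L * b : ℕ) : ℝ) * t :=
          mul_le_mul hrr q4 (by positivity) (by positivity)
        linarith
      · have h1 : ε / 100 * k ≤ ε / 100 * K := mul_le_mul_of_nonneg_left hKk (by positivity)
        linarith) (by
      intro w hw hwK
      obtain ⟨A, B, t, a1, a2, a3, a4, a5, a6, a7⟩ := hSTP k hk0 G hG hV he w hw hwK
      exact ⟨(A, B), ⟨a1, by rw [a2, a3], t, a2, a4, a5, a6⟩, a7⟩)
  obtain ⟨s, S, hS1, hS2, hsum⟩ := blb_core hSPL T L hL K (ε / 100) p (fun j => (hpF j).1)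
    (fun j => (hpF j).2.1) hs1 hs2
  have hTT : T ≤ T₀ := by
    have h1 : (T : ℝ) ≤ L / γ := by
      rw [le_div_iff₀ hγ]
      exact hTg
    have h2 : (T : ℝ) ≤ T₀ := by
      rw [hT₀]
      exact h1.trans (Nat.le_ceil _)
    exact_mod_cast h2
  set Gd : Finset (Fin T) := univ.filter (fun j => (p j).1.card ≤ 2 * L * s j) with hGd
  have hcd : Gd.card ≤ T := by
    have := card_filter_le (univ : Finset (Fin T)) (fun j => (p j).1.card ≤ 2 * L * s j)
    rwa [card_univ, Fintype.card_fin] at this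
  choose tt ht1 ht2 ht3 ht4 using fun j => (hpF j).2.2
  let e := Gd.equivFin
  refine ⟨Gd.card, fun i => S ((e.symm i).1, false), fun i => S ((e.symm i).1, true),
    fun i => tt (e.symm i).1, hcd.trans hTT, ?_, ?_, ?_⟩
  · intro i
    have hg : (p (e.symm i).1).1.card ≤ 2 * L * s (e.symm i).1 :=
      (mem_filter.1 (e.symm i).2).2
    set j := (e.symm i).1 with hj
    obtain ⟨a1, a2, a3, a4⟩ := hS1 j
    have hle : s j ≤ (p j).1.card := by
      rw [← a3]
      exact card_le_card a1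
    refine ⟨fun v hv hv' => (hpF j).1 v (a1 hv) (a2 hv'), by rw [a3, a4], ?_, ?_, ht2 j, ?_, ?_⟩
    · show b * tt j ≤ (S (j, false)).card
      rw [a3]
      rw [ht1 j] at hg
      have h1 : (2 * L) * (b * tt j) ≤ (2 * L) * s j := by
        calc (2 * L) * (b * tt j) = 2 * L * b * tt j := by ring
          _ ≤ _ := hg
      exact Nat.le_of_mul_le_mul_left h1 (by positivity)
    · show (S (j, false)).card ≤ 2 * L * b * tt j
      rw [a3, ← ht1 j]
      exact hle
    · show ((S (j, false)).card : ℝ) ≤ ε / 100 * k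
      rw [a3]
      have h1 : (s j : ℝ) ≤ (p j).1.card := by exact_mod_cast hle
      linarith [ht3 j]
    · intro A' hA' B' hB' h1 h2
      exact ht4 j A' (hA'.trans a1) B' (hB'.trans a2) h1 h2
  · intro i j hij v hv
    have hne : (e.symm i).1 ≠ (e.symm j).1 := by
      intro h
      exact hij (e.symm.injective (Subtype.ext h))
    have key : ∀ a c : Bool, ((e.symm i).1, a) ≠ ((e.symm j).1, c) := by
      intro a c h
      exact hne (Prod.mk.inj h).1
    rcases hv with hv | hv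
    · exact ⟨hS2 _ _ (key _ _) v hv, hS2 _ _ (key _ _) v hv⟩
    · exact ⟨hS2 _ _ (key _ _) v hv, hS2 _ _ (key _ _) v hv⟩
  · have h1 : ∑ i : Fin Gd.card, ((S ((e.symm i).1, false)).card : ℝ) = ∑ j ∈ Gd, (s j : ℝ) := by
      have h2 : ∑ i : Fin Gd.card, ((S ((e.symm i).1, false)).card : ℝ) =
          ∑ j : Gd, ((s j.1 : ℕ) : ℝ) := by
        rw [← e.symm.sum_comp]
        refine sum_congr rfl fun i _ => ?_
        rw [(hS1 (e.symm i).1).2.2.1]
      rw [h2, sum_coe_sort Gd (fun j => ((s j : ℕ) : ℝ))]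
    rw [h1]
    have hTr : (T : ℝ) ≤ T₀ := by exact_mod_cast hTT
    have h3 : 2 * (T₀ : ℝ) ≤ k * (0.075 * ε) := by
      rwa [div_le_iff₀ (by positivity)] at hk2
    have h4 : (1 + ε / 8) * k ≤ (1 - 4 * (ε / 100)) * K - 2 * T := by
      rw [hK]
      have h5 : 0 ≤ ε * (1 - ε) * k := by
        have : 0 ≤ 1 - ε := by linarith
        positivity
      nlinarith
    exact h4.trans hsum

end Pool.Agent.H35.VR
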