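import Pool.Agent.H30.VR.Targets

/-!
# Row FWE of the board `ver_modules` (MP_d32443_co)
-/

set_option autoImplicit false

open Finset Pool.Agent.H48.CE Pool.Agent.H30.VR

namespace Pool.Agent.H35.VR

theorem decomp {V : Type} [DecidableEq V] (l : List V) (x x' : V) (hx : x ∈ l) (hx' : x' ∈ l)
    (h : l.idxOf x < l.idxOf x') : ∃ l1 l2 l3 : List V, l = l1 ++ x :: (l2 ++ x' :: l3) ∧
      l1.length = l.idxOf x ∧ l1.length + 1 + l2.length = l.idxOf x' := by
  have hi : l.idxOf x < l.length := List.idxOf_lt_length_iff.2 hx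
  have hi' : l.idxOf x' < l.length := List.idxOf_lt_length_iff.2 hx'
  have gi : l[l.idxOf x] = x := List.getElem_idxOf hi
  have gi' : l[l.idxOf x'] = x' := List.getElem_idxOf hi'
  refine ⟨l.take (l.idxOf x), (l.drop (l.idxOf x + 1)).take (l.idxOf x' - l.idxOf x - 1),
    l.drop (l.idxOf x' + 1), ?_, ?_, ?_⟩
  · have h1 : l.drop (l.idxOf x') = x' :: l.drop (l.idxOf x' + 1) := by
      rw [List.drop_eq_getElem_cons hi', gi']
    have h2 : l.drop (l.idxOf x) = x :: l.drop (l.idxOf x + 1) := by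
      rw [List.drop_eq_getElem_cons hi, gi]
    have h3 : (l.drop (l.idxOf x + 1)).drop (l.idxOf x' - l.idxOf x - 1) =
        l.drop (l.idxOf x') := by
      rw [List.drop_drop]
      congr 1
      omega
    rw [← h1, ← h3, List.take_append_drop, ← h2, List.take_append_drop]
  · rw [List.length_take]
    omega
  · rw [List.length_take, List.length_take, List.length_drop]
    omega

theorem pf_FWE (hSWP : T_SWP) (hSHT : T_SHT) (hORD : T_ORD) : T_FWE := by
  classical
  intro V ι _ _ G a Y Q A B hQ hAB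
  obtain ⟨hPS, hmin⟩ := hQ
  obtain ⟨A', hA'⟩ : ∃ A' : Finset V, ∀ v, v ∈ A' ↔ v ∈ A ∧ ∃ i, v ∈ Q i :=
    ⟨A.filter (fun v => ∃ i, v ∈ Q i), fun v => mem_filter⟩
  obtain ⟨B', hB'⟩ : ∃ B' : Finset V, ∀ v, v ∈ B' ↔ v ∈ B ∧ ∃ i, v ∈ Q i :=
    ⟨B.filter (fun v => ∃ i, v ∈ Q i), fun v => mem_filter⟩
  have eA : ∀ inst : DecidablePred (fun v => ∃ i, v ∈ Q i),
      @Finset.filter V (fun v => ∃ i, v ∈ Q i) inst A = A' := by
    intro inst
    ext v
    rw [mem_filter, hA']
  have eB : ∀ inst : DecidablePred (fun v => ∃ i, v ∈ Q i),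
      @Finset.filter V (fun v => ∃ i, v ∈ Q i) inst B = B' := by
    intro inst
    ext v
    rw [mem_filter, hB']
  rw [eA, eB]
  -- positions
  have hinj : ∀ j, ∀ u ∈ Q j, ∀ v ∈ Q j, (Q j).idxOf u = (Q j).idxOf v → u = v := by
    intro j u hu v hv h
    have hi : (Q j).idxOf u < (Q j).length := List.idxOf_lt_length_iff.2 hu
    have hi' : (Q j).idxOf v < (Q j).length := List.idxOf_lt_length_iff.2 hv
    have gi : (Q j)[(Q j).idxOf u] = u := List.getElem_idxOf hi
    have gi' : (Q j)[(Q j).idxOf v] = v := List.getElem_idxOf hi'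
    rw [← gi, ← gi']
    simp only [h]
  -- exchange
  have hex : ∀ j l, j ≠ l → ∀ u ∈ Q j, ∀ u' ∈ Q j, ∀ w ∈ Q l, ∀ w' ∈ Q l, G.Adj u w →
      G.Adj u' w' → (Q j).idxOf u < (Q j).idxOf u' → (Q l).idxOf w' < (Q l).idxOf w →
      (Q j).idxOf u' = (Q j).idxOf u + 1 ∧ (Q l).idxOf w = (Q l).idxOf w' + 1 := by
    intro j l hjl u hu u' hu' w hw w' hw' h1 h2 h3 h4
    obtain ⟨l1, l2, l3, e1, e2, e3⟩ := decomp (Q j) u u' hu hu' h3
    obtain ⟨m1, m2, m3, f1, f2, f3⟩ := decomp (Q l) w' w hw' hw h4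
    obtain ⟨Q', g1, g2⟩ := hSWP G a Y Q hPS j l l1 l2 l3 m1 m2 m3 u u' w w' hjl e1 f1 h1 h2.symm
    have g3 := hmin Q' g1
    omega
  -- shortcut
  have hsh : ∀ j, ∀ u ∈ Q j, ∀ w ∈ Q j, G.Adj u w → (Q j).idxOf u < (Q j).idxOf w →
      (Q j).idxOf w = (Q j).idxOf u + 1 := by
    intro j u hu w hw h1 h2
    obtain ⟨l1, l2, l3, e1, e2, e3⟩ := decomp (Q j) u w hu hw h2
    obtain ⟨Q', g1, g2⟩ := hSHT G a Y Q hPS j l1 l2 l3 [] u w e1 (by simp) (by simp)
      (by simpa using h1)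
    have g3 := hmin Q' g1
    rw [List.length_nil] at g2
    omega
  -- one pair of paths
  have hpair : ∀ j l, (((A.filter (fun v => v ∈ Q j)) ×ˢ (B.filter (fun v => v ∈ Q l))).filter
      (fun q => G.Adj q.1 q.2)).card ≤
      (A.filter (fun v => v ∈ Q j)).card + 2 * (B.filter (fun v => v ∈ Q l)).card := by
    intro j l
    set E := ((A.filter (fun v => v ∈ Q j)) ×ˢ (B.filter (fun v => v ∈ Q l))).filter
      (fun q => G.Adj q.1 q.2) with hE
    have hEm : ∀ q ∈ E, q.1 ∈ A ∧ q.1 ∈ Q j ∧ q.2 ∈ B ∧ q.2 ∈ Q l ∧ G.Adj q.1 q.2 := by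
      intro q hq
      rw [hE, mem_filter, mem_product, mem_filter, mem_filter] at hq
      exact ⟨hq.1.1.1, hq.1.1.2, hq.1.2.1, hq.1.2.2, hq.2⟩
    have hcE : (E.image (fun q => ((Q j).idxOf q.1, (Q l).idxOf q.2))).card = E.card := by
      apply card_image_of_injOn
      intro q hq q' hq' h
      have h1 := hEm q hq
      have h2 := hEm q' hq'
      obtain ⟨h3, h4⟩ := Prod.mk.inj h
      exact Prod.ext (hinj j _ h1.2.1 _ h2.2.1 h3) (hinj l _ h1.2.2.2.1 _ h2.2.2.2.1 h4)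
    rw [← hcE]
    refine (hORD _ ((A.filter (fun v => v ∈ Q j)).image (fun v => (Q j).idxOf v))
      ((B.filter (fun v => v ∈ Q l)).image (fun v => (Q l).idxOf v)) ?_ ?_).trans ?_
    · intro q hq
      rw [mem_image] at hq
      obtain ⟨q₀, h0, rfl⟩ := hq
      rw [hE, mem_filter, mem_product] at h0
      exact ⟨mem_image_of_mem _ h0.1.1, mem_image_of_mem _ h0.1.2⟩
    · intro q hq q' hq' h1 h2
      rw [mem_image] at hq hq'
      obtain ⟨p, hp, rfl⟩ := hq
      obtain ⟨p', hp', rfl⟩ := hq'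
      obtain ⟨a1, a2, a3, a4, a5⟩ := hEm p hp
      obtain ⟨b1, b2, b3, b4, b5⟩ := hEm p' hp'
      by_cases hjl : j = l
      · subst hjl
        have k1 : (Q j).idxOf p.2 = (Q j).idxOf p.1 + 1 ∨ (Q j).idxOf p.1 = (Q j).idxOf p.2 + 1 := by
          rcases lt_trichotomy ((Q j).idxOf p.1) ((Q j).idxOf p.2) with h | h | h
          · exact Or.inl (hsh j _ a2 _ a4 a5 h)
          · exact absurd (hinj j _ a2 _ a4 h) a5.ne
          · exact Or.inr (hsh j _ a4 _ a2 a5.symm h)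
        have k2 : (Q j).idxOf p'.2 = (Q j).idxOf p'.1 + 1 ∨
            (Q j).idxOf p'.1 = (Q j).idxOf p'.2 + 1 := by
          rcases lt_trichotomy ((Q j).idxOf p'.1) ((Q j).idxOf p'.2) with h | h | h
          · exact Or.inl (hsh j _ b2 _ b4 b5 h)
          · exact absurd (hinj j _ b2 _ b4 h) b5.ne
          · exact Or.inr (hsh j _ b4 _ b2 b5.symm h)
        simp only at h1 h2 ⊢
        omega
      · exact hex j l hjl _ a2 _ b2 _ a4 _ b4 a5 b5 h1 h2
    · have i1 := card_image_le (s := A.filter (fun v => v ∈ Q j)) (f := fun v => (Q j).idxOf v)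
      have i2 := card_image_le (s := B.filter (fun v => v ∈ Q l)) (f := fun v => (Q l).idxOf v)
      omega
  -- the disjoint parts
  have hpart : ∀ C : Finset V, ∑ j, (C.filter (fun v => v ∈ Q j)).card ≤ C.card := by
    intro C
    rw [← card_biUnion]
    · apply card_le_card
      intro v hv
      rw [mem_biUnion] at hv
      obtain ⟨j, -, hv⟩ := hv
      exact (mem_filter.1 hv).1
    · intro i _ j _ hij
      rw [Function.onFun, disjoint_left]
      intro v hv hv'
      exact hPS.disj i j hij v (mem_filter.1 hv).2 (mem_filter.1 hv').2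
  -- the count
  rw [ee_eq_card]
  have hsub : ((A' ×ˢ B').filter (fun q => G.Adj q.1 q.2)) ⊆
      (univ : Finset (ι × ι)).biUnion (fun jl =>
        ((A.filter (fun v => v ∈ Q jl.1)) ×ˢ (B.filter (fun v => v ∈ Q jl.2))).filter
          (fun q => G.Adj q.1 q.2)) := by
    intro q hq
    rw [mem_filter, mem_product, hA', hB'] at hq
    obtain ⟨⟨⟨q1, j, q2⟩, ⟨q3, l, q4⟩⟩, q5⟩ := hq
    rw [mem_biUnion]
    refine ⟨(j, l), mem_univ _, ?_⟩
    rw [mem_filter, mem_product, mem_filter, mem_filter]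
    exact ⟨⟨⟨q1, q2⟩, ⟨q3, q4⟩⟩, q5⟩
  calc ((A' ×ˢ B').filter (fun q => G.Adj q.1 q.2)).card ≤
      ∑ jl : ι × ι, (((A.filter (fun v => v ∈ Q jl.1)) ×ˢ
        (B.filter (fun v => v ∈ Q jl.2))).filter (fun q => G.Adj q.1 q.2)).card :=
        (card_le_card hsub).trans card_biUnion_le
    _ ≤ ∑ jl : ι × ι, ((A.filter (fun v => v ∈ Q jl.1)).card +
        2 * (B.filter (fun v => v ∈ Q jl.2)).card) := sum_le_sum fun jl _ => hpair jl.1 jl.2
    _ = Fintype.card ι * (∑ j, (A.filter (fun v => v ∈ Q j)).card) +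
        2 * (Fintype.card ι * ∑ j, (B.filter (fun v => v ∈ Q j)).card) := by
        rw [Fintype.sum_prod_type]
        simp only [sum_add_distrib, sum_const, card_univ, smul_eq_mul, ← mul_sum]
        ring
    _ ≤ Fintype.card ι * A.card + 2 * (Fintype.card ι * B.card) := by
        have h1 := Nat.mul_le_mul_left (Fintype.card ι) (hpart A)
        have h2 := Nat.mul_le_mul_left (Fintype.card ι) (hpart B)
        omega
    _ ≤ 3 * Fintype.card ι * (A.card + B.card) := by nlinarith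

end Pool.Agent.H35.VR
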